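import Pool.Agent.Lib_helper53.TP.FMain
import Pool.Agent.Lib_helper53.TP.Bridge

/-!
# MP_873cb2_an, Q1: the answer is yes

Every connected component of every stratum of translation surfaces of genus at least three
contains a surface (even a square-tiled one) whose only Hodge-Teichmueller plane is the
tautological plane.

The definitions are in `Pool/Agent/Lib_helper53/TP/Defs.lean` (translation surfaces, the moduli
space, periods of holomorphic forms) and `Pool/Agent/Lib_helper53/TP/Stmt.lean` (cohomology,
Hodge-Teichmueller planes).
-/

namespace Pool.Agent.Results.MP_873cb2_an.OnlyTautological

open Pool.Agent.TP Pool.Agent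

/-- For every triangulated translation surface `x` of area one and genus at least three there is
a square-tiled surface `y` in the connected component of `x` in the space of translation surfaces
of area one, such that a subspace of `H^1(y, ℝ)` is a Hodge-Teichmueller plane if and only if it
is the tautological plane. -/
theorem result (x : Surf) (hg : 3 ≤ HTP.genus x.comb) :
    ∃ y : Surf, (Quot.mk Elem y : Moduli) ∈ connectedComponent (Quot.mk Elem x : Moduli) ∧
      SquareTiled y ∧ HTP.OnlyTaut y := by
  obtain ⟨y, h1, h2, h3⟩ := main_theorem x hg
  exact ⟨y, h1, h2, (HTP.onlyTaut_iff y).2 h3⟩

end Pool.Agent.Results.MP_873cb2_an.OnlyTautological
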